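import Pool.Agent.Helper20.MB.DefsG
import Pool.Agent.Helper76.HP.P2

/-!
# MB-8b : the Lie derivatives along the spray are invariant under the change of gauge
-/

open Filter Metric Module Set
open scoped Topology ContDiff RealInnerProductSpace Manifold

set_option maxSynthPendingDepth 3

namespace Pool.Agent.Helper21.MB
open Pool.Agent.Helper20.PC Pool.Agent.Helper20.HP Pool.Agent.Helper20.M8 Pool.Agent.Helper20.MB

/-! ### naturality of the Lie derivative -/

section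
variable {E E' F : Type*} [NormedAddCommGroup E] [NormedSpace ℝ E] [NormedAddCommGroup E']
  [NormedSpace ℝ E'] [NormedAddCommGroup F] [NormedSpace ℝ F]

lemma lie_comp {ψ : E → E'} {X' : E → E} {X : E' → E'} {f' : E → F} {f : E' → F} {s : E}
    (hψ : ∀ᶠ t in 𝓝 s, DifferentiableAt ℝ ψ t)
    (hX : ∀ᶠ t in 𝓝 s, fderiv ℝ ψ t (X' t) = X (ψ t))
    (hf : ∀ᶠ t in 𝓝 s, f' t = f (ψ t))
    (hd : ∀ᶠ t in 𝓝 s, DifferentiableAt ℝ f (ψ t)) :
    ∀ᶠ t in 𝓝 s, lie X' f' t = lie X f (ψ t) := by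
  filter_upwards [hψ, hX, hf.eventually_nhds, hd] with t h1 h2 h3 h4
  have h5 : f' =ᶠ[𝓝 t] f ∘ ψ := h3
  rw [lie, lie, h5.fderiv_eq, fderiv_comp t h4 h1, ContinuousLinearMap.comp_apply, h2]

end

section
variable {V Y : Type*} [NormedAddCommGroup V] [NormedSpace ℝ V] [FiniteDimensional ℝ V]
  [NormedAddCommGroup Y] [NormedSpace ℝ Y] [FiniteDimensional ℝ Y] {D : BD V Y} {x : V} {y : Y}

omit [FiniteDimensional ℝ V] in
lemma gau_contDiff' (A : V → V →L[ℝ] Y →L[ℝ] Y) (x : V) : ContDiff ℝ ∞ (gau A x) := by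
  unfold gau
  have h1 : ContDiff ℝ ∞ (fun x' : V => A x (x' - x)) :=
    (A x).contDiff.comp (contDiff_id.sub contDiff_const)
  have h2 : ContDiff ℝ ∞ (fun x' : V => fderiv ℝ A x (x' - x) (x' - x)) :=
    ((fderiv ℝ A x).contDiff.comp (contDiff_id.sub contDiff_const)).clm_apply
      (contDiff_id.sub contDiff_const)
  exact (contDiff_const.sub h1).add ((h1.clm_comp h1).sub h2 |>.const_smul (1/2 : ℝ))

omit [FiniteDimensional ℝ V] in
lemma gau_self' (A : V → V →L[ℝ] Y →L[ℝ] Y) (x : V) : gau A x x = ContinuousLinearMap.id ℝ Y := by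
  simp [gau]

omit [FiniteDimensional ℝ V] in
lemma gau_inv' (A : V → V →L[ℝ] Y →L[ℝ] Y) (x : V) :
    ∀ᶠ x' in 𝓝 x, (gau A x x').IsInvertible := by
  have h1 : ContinuousAt (gau A x) x := (gau_contDiff' A x).continuous.continuousAt
  have h2 : {f : Y →L[ℝ] Y | f.IsInvertible} ∈ 𝓝 (gau A x x) := by
    rw [gau_self']
    have := (ContinuousLinearEquiv.refl ℝ Y).nhds
    exact this
  exact h1 h2

omit [FiniteDimensional ℝ V] in
lemma gst_contDiff (A : V → V →L[ℝ] Y →L[ℝ] Y) (x : V) : ContDiff ℝ ∞ (gst A x) := by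
  have hg : ContDiff ℝ ∞ (fun s : St V Y => gau A x s.1) := (gau_contDiff' A x).comp contDiff_fst
  unfold gst
  fun_prop

omit [FiniteDimensional ℝ V] in
lemma gst_self (A : V → V →L[ℝ] Y →L[ℝ] Y) (x : V) (s : St V Y) (hs : s.1 = x) : gst A x s = s := by
  obtain ⟨a, b, c, d, e, f, g⟩ := s
  obtain rfl : a = x := hs
  simp [gst, gau_self']

omit [FiniteDimensional ℝ V] in
/-- the gauge transformation relates the two sprays. -/
lemma gst_spray (D : BD V Y) (x : V) (s : St V Y) (hinv : (gau D.A x s.1).IsInvertible) :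
    fderiv ℝ (gst D.A x) s ((D.til x).Xs s) = D.Xs (gst D.A x s) := by
  have hg : ∀ t : St V Y, HasFDerivAt (fun s : St V Y => gau D.A x s.1)
      ((fderiv ℝ (gau D.A x) t.1) ∘L (ContinuousLinearMap.fst ℝ V (V × V × Y × Y × Y × Y))) t := fun t =>
    (((gau_contDiff' D.A x).differentiable (by simp)).differentiableAt.hasFDerivAt).comp t
      hasFDerivAt_fst
  have h1 : HasFDerivAt (fun s : St V Y => s.1) (ContinuousLinearMap.fst ℝ V (V × V × Y × Y × Y × Y)) s :=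
    hasFDerivAt_fst
  have hs := hasFDerivAt_snd (𝕜 := ℝ) (p := s)
  have h2 : HasFDerivAt (fun s : St V Y => s.2.1) _ s := hs.fst
  have h2' : HasFDerivAt (fun s : St V Y => s.2.2) _ s := hs.snd
  have h3 : HasFDerivAt (fun s : St V Y => s.2.2.1) _ s := h2'.fst
  have h3' : HasFDerivAt (fun s : St V Y => s.2.2.2) _ s := h2'.snd
  have h4 : HasFDerivAt (fun s : St V Y => s.2.2.2.1) _ s := h3'.fst
  have h4' : HasFDerivAt (fun s : St V Y => s.2.2.2.2) _ s := h3'.snd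
  have h5 : HasFDerivAt (fun s : St V Y => s.2.2.2.2.1) _ s := h4'.fst
  have h5' : HasFDerivAt (fun s : St V Y => s.2.2.2.2.2) _ s := h4'.snd
  have h6 : HasFDerivAt (fun s : St V Y => s.2.2.2.2.2.1) _ s := h5'.fst
  have h7 : HasFDerivAt (fun s : St V Y => s.2.2.2.2.2.2) _ s := h5'.snd
  have H : HasFDerivAt (gst D.A x) _ s :=
    h1.prodMk (h2.prodMk (h3.prodMk (((hg s).clm_apply h4).prodMk
      (((hg s).clm_apply h5).prodMk (((hg s).clm_apply h6).prodMk ((hg s).clm_apply h7))))))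
  have key : ∀ (X : V) (p : Y), gau D.A x s.1 ((D.til x).A s.1 X p)
      = D.A s.1 X (gau D.A x s.1 p) + fderiv ℝ (gau D.A x) s.1 X p := by
    intro X p
    rw [BD.til_A, hinv.self_apply_inverse]
  rw [H.fderiv]
  simp only [BD.Xs, gst, ContinuousLinearMap.prod_apply, ContinuousLinearMap.comp_apply,
    ContinuousLinearMap.coe_fst', ContinuousLinearMap.coe_snd', _root_.add_apply,
    ContinuousLinearMap.flip_apply, map_neg, key, Prod.mk.injEq]
  refine ⟨trivial, rfl, rfl, ?_, ?_, ?_, ?_⟩ <;> abel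

/-! ### smoothness -/

lemma gam_contDiffAt {h : V → V →L[ℝ] V →L[ℝ] ℝ} {P : Type*} [NormedAddCommGroup P] [NormedSpace ℝ P]
    {a u v : P → V} {s : P} (hh : ContDiffAt ℝ ∞ h (a s)) (hinv : (h (a s)).IsInvertible)
    (ha : ContDiffAt ℝ ∞ a s) (hu : ContDiffAt ℝ ∞ u s) (hv : ContDiffAt ℝ ∞ v s) :
    ContDiffAt ℝ ∞ (fun t => Gam h (a t) (u t) (v t)) s := by
  unfold Gam
  have h1 : ContDiffAt ℝ ∞ (fun t => (h (a t)).inverse) s := by
    obtain ⟨e, he⟩ := hinv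
    have h2 : ContDiffAt ℝ ∞ ContinuousLinearMap.inverse (h (a s)) := by
      rw [← he]
      exact contDiffAt_map_inverse e
    exact h2.comp s (hh.comp s ha)
  refine h1.clm_apply ?_
  have hd : ContDiffAt ℝ ∞ (fun t => fderiv ℝ h (a t)) s :=
    (hh.fderiv_right (m := ∞) (by simp)).comp s ha
  have hev : ∀ᶠ t in 𝓝 s, DifferentiableAt ℝ h (a t) := by
    have h3 : ∀ᶠ z in 𝓝 (a s), DifferentiableAt ℝ h z :=
      ((hh.of_le (m := 1) (by simp)).eventually (by simp)).mono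
        (fun z hz => hz.differentiableAt (by simp))
    exact ha.continuousAt.eventually h3
  refine Pool.Agent.Helper76.HP.contDiffAt_of_apply (fun w => ?_)
  have h4 : ContDiffAt ℝ ∞ (fun t => (1/2 : ℝ) * (fderiv ℝ h (a t) (u t) (v t) w
      + fderiv ℝ h (a t) (v t) (u t) w - fderiv ℝ h (a t) w (u t) (v t))) s :=
    contDiffAt_const.mul ((((hd.clm_apply hu).clm_apply hv).clm_apply contDiffAt_const).add
      (((hd.clm_apply hv).clm_apply hu).clm_apply contDiffAt_const) |>.sub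
      (((hd.clm_apply contDiffAt_const).clm_apply hu).clm_apply hv))
  refine h4.congr_of_eventuallyEq ?_
  filter_upwards [hev] with t ht
  have e1 : ∀ u v : V, fderiv ℝ (fun z' => h z' v) (a t) u = fderiv ℝ h (a t) u v := by
    intro u v
    rw [(ht.hasFDerivAt.clm_apply (hasFDerivAt_const v (a t))).fderiv]
    simp
  have e2 : ∀ u v w : V, fderiv ℝ (fun z' => h z' u v) (a t) w = fderiv ℝ h (a t) w u v := by
    intro u v w
    rw [((ht.hasFDerivAt.clm_apply (hasFDerivAt_const u (a t))).clm_apply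
      (hasFDerivAt_const v (a t))).fderiv]
    simp
  simp only [chr, _root_.smul_apply, _root_.sub_apply, _root_.add_apply, e1, e2, smul_eq_mul]

lemma Xs_contDiffAt (H : D.Good x) (s : St V Y) (hs : s.1 = x) : ContDiffAt ℝ ∞ D.Xs s := by
  subst hs
  have hinv : (D.h s.1).IsInvertible := invertible_of_pos H.hpos.self_of_nhds
  have c1 : ContDiffAt ℝ ∞ (fun s : St V Y => s.1) s := contDiffAt_fst
  have cc := contDiffAt_snd (𝕜 := ℝ) (n := ∞) (p := s)
  have c2 : ContDiffAt ℝ ∞ (fun s : St V Y => s.2.1) s := cc.fst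
  have c2' : ContDiffAt ℝ ∞ (fun s : St V Y => s.2.2) s := cc.snd
  have c3 : ContDiffAt ℝ ∞ (fun s : St V Y => s.2.2.1) s := c2'.fst
  have c3' : ContDiffAt ℝ ∞ (fun s : St V Y => s.2.2.2) s := c2'.snd
  have c4 : ContDiffAt ℝ ∞ (fun s : St V Y => s.2.2.2.1) s := c3'.fst
  have c4' : ContDiffAt ℝ ∞ (fun s : St V Y => s.2.2.2.2) s := c3'.snd
  have c5 : ContDiffAt ℝ ∞ (fun s : St V Y => s.2.2.2.2.1) s := c4'.fst
  have c5' : ContDiffAt ℝ ∞ (fun s : St V Y => s.2.2.2.2.2) s := c4'.snd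
  have c6 : ContDiffAt ℝ ∞ (fun s : St V Y => s.2.2.2.2.2.1) s := c5'.fst
  have c7 : ContDiffAt ℝ ∞ (fun s : St V Y => s.2.2.2.2.2.2) s := c5'.snd
  have cA : ContDiffAt ℝ ∞ (fun s : St V Y => D.A s.1 s.2.1) s := (H.hA.comp s c1).clm_apply c2
  exact c2.prodMk ((gam_contDiffAt H.hh hinv c1 c2 c2).neg.prodMk
    ((gam_contDiffAt H.hh hinv c1 c2 c3).neg.prodMk ((cA.clm_apply c4).neg.prodMk
      ((cA.clm_apply c5).neg.prodMk ((cA.clm_apply c6).neg.prodMk (cA.clm_apply c7).neg)))))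

lemma SS_contDiffAt (H : D.Good x) (s : St V Y) (hs : s.1 = x) : ContDiffAt ℝ ∞ D.SS s := by
  subst hs
  have c1 : ContDiffAt ℝ ∞ (fun s : St V Y => s.1) s := contDiffAt_fst
  have cc := contDiffAt_snd (𝕜 := ℝ) (n := ∞) (p := s)
  have c2' : ContDiffAt ℝ ∞ (fun s : St V Y => s.2.2) s := cc.snd
  have c3' : ContDiffAt ℝ ∞ (fun s : St V Y => s.2.2.2) s := c2'.snd
  have c4 : ContDiffAt ℝ ∞ (fun s : St V Y => s.2.2.2.1) s := c3'.fst
  have c4' : ContDiffAt ℝ ∞ (fun s : St V Y => s.2.2.2.2) s := c3'.snd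
  have c5 : ContDiffAt ℝ ∞ (fun s : St V Y => s.2.2.2.2.1) s := c4'.fst
  have c5' : ContDiffAt ℝ ∞ (fun s : St V Y => s.2.2.2.2.2) s := c4'.snd
  have c6 : ContDiffAt ℝ ∞ (fun s : St V Y => s.2.2.2.2.2.1) s := c5'.fst
  have c7 : ContDiffAt ℝ ∞ (fun s : St V Y => s.2.2.2.2.2.2) s := c5'.snd
  exact ((((H.hS.comp s c1).clm_apply c4).clm_apply c5).clm_apply c6).clm_apply c7

lemma OmS_contDiffAt (H : D.Good x) (s : St V Y) (hs : s.1 = x) : ContDiffAt ℝ ∞ D.OmS s := by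
  subst hs
  have c1 : ContDiffAt ℝ ∞ (fun s : St V Y => s.1) s := contDiffAt_fst
  have cc := contDiffAt_snd (𝕜 := ℝ) (n := ∞) (p := s)
  have c2 : ContDiffAt ℝ ∞ (fun s : St V Y => s.2.1) s := cc.fst
  have c2' : ContDiffAt ℝ ∞ (fun s : St V Y => s.2.2) s := cc.snd
  have c3 : ContDiffAt ℝ ∞ (fun s : St V Y => s.2.2.1) s := c2'.fst
  have c3' : ContDiffAt ℝ ∞ (fun s : St V Y => s.2.2.2) s := c2'.snd
  have c4 : ContDiffAt ℝ ∞ (fun s : St V Y => s.2.2.2.1) s := c3'.fst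
  have c4' : ContDiffAt ℝ ∞ (fun s : St V Y => s.2.2.2.2) s := c3'.snd
  have c5 : ContDiffAt ℝ ∞ (fun s : St V Y => s.2.2.2.2.1) s := c4'.fst
  have cA : ContDiffAt ℝ ∞ (fun s : St V Y => D.A s.1) s := H.hA.comp s c1
  have cdA : ContDiffAt ℝ ∞ (fun s : St V Y => fderiv ℝ D.A s.1) s :=
    (H.hA.fderiv_right (m := ∞) (by simp)).comp s c1
  have cO : ContDiffAt ℝ ∞ (fun s : St V Y => OmV D.A s.1 s.2.1 s.2.2.1) s :=
    (((cdA.clm_apply c2).clm_apply c3).sub ((cdA.clm_apply c3).clm_apply c2)).add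
      ((cA.clm_apply c2).clm_comp (cA.clm_apply c3)) |>.sub
      ((cA.clm_apply c3).clm_comp (cA.clm_apply c2))
  exact ((H.hk.comp s c1).clm_apply c4).clm_apply (cO.clm_apply c5)

/-- **MB-8b** (the statement of `til_OmV` is the hypothesis `hO`). -/
theorem til_lie_of (H : D.Good x)
    (hO : ∀ᶠ x' in 𝓝 x, ∀ (ζ ζ' : V) (p : Y),
      OmV (D.til x).A x' ζ ζ' p = (gau D.A x x').inverse (OmV D.A x' ζ ζ' (gau D.A x x' p)))
    (s : St V Y) (hs : s.1 = x) :
    lie (D.til x).Xs (D.til x).OmS s = lie D.Xs D.OmS s ∧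
    lie (D.til x).Xs (D.til x).SS s = lie D.Xs D.SS s ∧
    lie (D.til x).Xs (lie (D.til x).Xs (D.til x).SS) s = lie D.Xs (lie D.Xs D.SS) s := by
  have hself := gst_self D.A x s hs
  have hcont : ContinuousAt (gst D.A x) s := (gst_contDiff D.A x).continuous.continuousAt
  have hfst : Tendsto (fun t : St V Y => t.1) (𝓝 s) (𝓝 x) := by
    rw [← hs]; exact continuous_fst.continuousAt
  have hψ : ∀ᶠ t in 𝓝 s, DifferentiableAt ℝ (gst D.A x) t :=
    Eventually.of_forall fun t => ((gst_contDiff D.A x).differentiable (by simp)).differentiableAt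
  have hX : ∀ᶠ t in 𝓝 s, fderiv ℝ (gst D.A x) t ((D.til x).Xs t) = D.Xs (gst D.A x t) := by
    filter_upwards [hfst.eventually (gau_inv' D.A x)] with t ht
    exact gst_spray D x t ht
  have hf1 : ∀ᶠ t in 𝓝 s, (D.til x).OmS t = D.OmS (gst D.A x t) := by
    filter_upwards [hfst.eventually (gau_inv' D.A x), hfst.eventually hO] with t ht hOt
    simp only [BD.OmS, gst, BD.til_k, hOt]
    rw [ht.self_apply_inverse]
  have hf2 : ∀ᶠ t in 𝓝 s, (D.til x).SS t = D.SS (gst D.A x t) := by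
    refine Eventually.of_forall fun t => ?_
    simp only [BD.SS, gst, BD.til_S]
  have ev : ∀ {f : St V Y → ℝ}, ContDiffAt ℝ ∞ f s → ∀ᶠ t in 𝓝 s, DifferentiableAt ℝ f (gst D.A x t) := by
    intro f hf
    have h3 : ∀ᶠ z in 𝓝 (gst D.A x s), DifferentiableAt ℝ f z := by
      rw [hself]
      exact ((hf.of_le (m := 1) (by simp)).eventually (by simp)).mono
        (fun z hz => hz.differentiableAt (by simp))
    exact hcont.eventually h3
  have r1 := lie_comp hψ hX hf1 (ev (OmS_contDiffAt H s hs))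
  have r2 := lie_comp hψ hX hf2 (ev (SS_contDiffAt H s hs))
  have c3 : ContDiffAt ℝ ∞ (lie D.Xs D.SS) s :=
    ((SS_contDiffAt H s hs).fderiv_right (m := ∞) (by simp)).clm_apply (Xs_contDiffAt H s hs)
  have r3 := lie_comp hψ hX r2 (ev c3)
  refine ⟨?_, ?_, ?_⟩
  · rw [r1.self_of_nhds, hself]
  · rw [r2.self_of_nhds, hself]
  · rw [r3.self_of_nhds, hself]

end

end Pool.Agent.Helper21.MB
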